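import Mathlib

set_option autoImplicit false

namespace Pool.Agent.Results.MP_f639ae_co.ExponentialGrowth

open Finset Filter Topology

/-- The `k`-dimension: the least `t` such that `P` has an order embedding into `k^t`. -/
noncomputable def kdim (k : ℕ) (P : Type) [PartialOrder P] : ℕ :=
  sInf {t : ℕ | Nonempty (P ↪o (Fin t → Fin k))}

/-- `P` is `k`-irreducible: deleting any point lowers the `k`-dimension. -/
def KIrreducible (k : ℕ) (P : Type) [PartialOrder P] : Prop :=
  ∀ x : P, kdim k {y : P // y ≠ x} < kdim k P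

/-- finite posets -/
structure FinPoset where
  /-- the underlying type -/
  carrier : Type
  /-- the order -/
  [order : PartialOrder carrier]
  /-- finiteness -/
  [finite : Finite carrier]

attribute [instance] FinPoset.order FinPoset.finite

/-- isomorphism of finite posets -/
def isoSetoid : Setoid FinPoset where
  r P Q := Nonempty (P.carrier ≃o Q.carrier)
  iseqv := ⟨fun _ => ⟨OrderIso.refl _⟩, fun ⟨e⟩ => ⟨e.symm⟩, fun ⟨e⟩ ⟨f⟩ => ⟨e.trans f⟩⟩

/-- The number of isomorphism classes of `k`-irreducible finite posets of `k`-dimension `t`. -/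
noncomputable def N (k t : ℕ) : ℕ∞ :=
  {c : Quotient isoSetoid | ∃ P : FinPoset, Quotient.mk isoSetoid P = c ∧
    KIrreducible k P.carrier ∧ kdim k P.carrier = t}.encard

/-! ### Gap lemmas -/

section gap

variable {L : Type} [DistribLattice L] {ρ : L → ℕ}

theorem gap2 (hρ : StrictMono ρ) {u v z : L} (h1 : ¬ u ≤ v) (h2 : ¬ v ≤ u) (hu : u ≤ z)
    (hv : v ≤ z) : ρ (u ⊓ v) + 2 ≤ ρ z := by
  have a1 : ρ (u ⊓ v) < ρ u := hρ (inf_lt_left.2 h1)
  have a2 : ρ u < ρ (u ⊔ v) := hρ (left_lt_sup.2 h2)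
  have a3 : ρ (u ⊔ v) ≤ ρ z := hρ.monotone (sup_le hu hv)
  omega

theorem gap3_aux (hρ : StrictMono ρ) {u v w z : L} (h1 : ¬ u ≤ v) (h2 : ¬ v ≤ u) (hu : u ≤ z)
    (hv : v ≤ z) (h : ¬ u ⊓ v ≤ w) : ρ (u ⊓ v ⊓ w) + 3 ≤ ρ z := by
  have a0 : ρ (u ⊓ v ⊓ w) < ρ (u ⊓ v) := hρ (inf_lt_left.2 h)
  have a1 := gap2 hρ h1 h2 hu hv
  omega

theorem gap3 (hρ : StrictMono ρ) {u v w z : L} (h1 : ¬ u ≤ v) (h2 : ¬ v ≤ u) (h3 : ¬ u ≤ w)
    (h4 : ¬ w ≤ u) (h5 : ¬ v ≤ w) (h6 : ¬ w ≤ v) (hu : u ≤ z) (hv : v ≤ z) (hw : w ≤ z) :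
    ρ (u ⊓ v ⊓ w) + 3 ≤ ρ z := by
  by_cases c1 : u ⊓ v ≤ w
  · by_cases c2 : u ⊓ w ≤ v
    · by_cases c3 : v ⊓ w ≤ u
      · by_cases c4 : w ≤ u ⊔ v
        · exfalso
          apply h4
          have e : w = (w ⊓ u) ⊔ (w ⊓ v) := by
            rw [← inf_sup_left, inf_eq_left.2 c4]
          rw [e]
          exact sup_le inf_le_right (by rw [inf_comm]; exact c3)
        · have a0 : ρ (u ⊓ v ⊓ w) ≤ ρ (u ⊓ v) := hρ.monotone inf_le_left
          have a1 : ρ (u ⊓ v) + 2 ≤ ρ (u ⊔ v) := gap2 hρ h1 h2 le_sup_left le_sup_right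
          have a2 : ρ (u ⊔ v) < ρ (u ⊔ v ⊔ w) := hρ (left_lt_sup.2 c4)
          have a3 : ρ (u ⊔ v ⊔ w) ≤ ρ z := hρ.monotone (sup_le (sup_le hu hv) hw)
          omega
      · have := gap3_aux hρ h5 h6 hv hw c3
        rw [show u ⊓ v ⊓ w = v ⊓ w ⊓ u by rw [inf_assoc, inf_comm]]
        exact this
    · have := gap3_aux hρ h3 h4 hu hw c2
      rw [show u ⊓ v ⊓ w = u ⊓ w ⊓ v by rw [inf_right_comm]]
      exact this
  · exact gap3_aux hρ h1 h2 hu hv c1

end gap

/-! ### Ordinal sums of antichains -/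

/-- The ordinal sum of `s` antichains of sizes `a 0, a 1, ...`. -/
def BP (a : ℕ → ℕ) (s : ℕ) : Type := {p : ℕ × ℕ // p.1 < s ∧ p.2 < a p.1}

namespace BP

variable {a : ℕ → ℕ} {s : ℕ}

instance : PartialOrder (BP a s) where
  le p q := p.1.1 < q.1.1 ∨ p = q
  le_refl p := Or.inr rfl
  le_trans p q r h1 h2 := by
    rcases h1 with h1 | rfl
    · rcases h2 with h2 | rfl
      · exact Or.inl (h1.trans h2)
      · exact Or.inl h1
    · exact h2
  le_antisymm p q h1 h2 := by
    rcases h1 with h1 | h1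
    · rcases h2 with h2 | h2
      · exact absurd (h1.trans h2) (lt_irrefl _)
      · exact h2.symm
    · exact h1

theorem le_def {p q : BP a s} : p ≤ q ↔ p.1.1 < q.1.1 ∨ p = q := Iff.rfl

theorem lt_def {p q : BP a s} : p < q ↔ p.1.1 < q.1.1 := by
  rw [lt_iff_le_and_ne, le_def]
  constructor
  · rintro ⟨h | h, h'⟩
    · exact h
    · exact absurd h h'
  · intro h
    exact ⟨Or.inl h, fun h' => by rw [h'] at h; exact lt_irrefl _ h⟩

instance : Finite (BP a s) := by
  have : {p : ℕ × ℕ | p.1 < s ∧ p.2 < a p.1}.Finite := by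
    refine ((range s ×ˢ range (∑ i ∈ range s, a i + 1) : Finset (ℕ × ℕ)).finite_toSet).subset ?_
    rintro ⟨i, x⟩ ⟨h1, h2⟩
    simp only [coe_product, Set.mem_prod, mem_coe, mem_range]
    refine ⟨h1, ?_⟩
    have h3 : a i ≤ ∑ j ∈ range s, a j :=
      Finset.single_le_sum (f := a) (fun _ _ => Nat.zero_le _) (mem_range.2 h1)
    have h4 : x < a i := h2
    show x < ∑ i ∈ range s, a i + 1
    omega
  exact this.to_subtype

/-- the element `(i, x)` -/
def mk' (i x : ℕ) (h1 : i < s) (h2 : x < a i) : BP a s := ⟨(i, x), h1, h2⟩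

theorem not_le_of_ne {i x y : ℕ} {h1 : i < s} {h2 : x < a i} {h3 : y < a i} (h : x ≠ y) :
    ¬ (mk' i x h1 h2 : BP a s) ≤ mk' i y h1 h3 := by
  rintro (h' | h')
  · exact lt_irrefl _ h'
  · exact h (congrArg (fun p : BP a s => p.1.2) h')

end BP

/-- partial sums -/
def S (a : ℕ → ℕ) (i : ℕ) : ℕ := ∑ j ∈ range i, a j

theorem S_succ (a : ℕ → ℕ) (i : ℕ) : S a (i + 1) = S a i + a i := by
  unfold S
  rw [sum_range_succ]

/-- the rank of a vector -/
def rho {t k : ℕ} (z : Fin t → Fin k) : ℕ := ∑ c, (z c : ℕ)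

theorem rho_strictMono {t k : ℕ} : StrictMono (rho : (Fin t → Fin k) → ℕ) := by
  intro x y hxy
  rw [Pi.lt_def] at hxy
  obtain ⟨h1, i, h2⟩ := hxy
  exact Finset.sum_lt_sum (fun c _ => h1 c) ⟨i, mem_univ _, h2⟩

theorem lower_aux {a : ℕ → ℕ} {s t k : ℕ} (ha : ∀ i, a i = 2 ∨ a i = 3)
    (f : BP a s ↪o (Fin t → Fin k)) : ∀ i ≤ s, ∀ z : Fin t → Fin k,
      (∀ p : BP a s, p.1.1 < i → f p ≤ z) → S a i ≤ rho z := by
  intro i
  induction i with
  | zero =>
    intro _ z _
    simp [S]
  | succ i ih =>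
    intro hi z hz
    rw [S_succ]
    have hi' : i < s := hi
    have hle : ∀ (x y : ℕ) (hx : x < a i) (j : ℕ) (hj : j < i) (hy : y < a j),
        f (BP.mk' j y (hj.trans hi') hy) ≤ f (BP.mk' i x hi' hx) := by
      intro x y hx j hj hy
      exact f.monotone (Or.inl hj)
    rcases ha i with h | h
    · have h0 : 0 < a i := by omega
      have h1 : 1 < a i := by omega
      have g := gap2 (ρ := rho) rho_strictMono
        (u := f (BP.mk' i 0 hi' h0)) (v := f (BP.mk' i 1 hi' h1)) (z := z)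
        (fun hh => BP.not_le_of_ne (by norm_num) (f.le_iff_le.1 hh))
        (fun hh => BP.not_le_of_ne (by norm_num) (f.le_iff_le.1 hh))
        (hz _ (Nat.lt_succ_self i)) (hz _ (Nat.lt_succ_self i))
      have g2 := ih hi'.le (f (BP.mk' i 0 hi' h0) ⊓ f (BP.mk' i 1 hi' h1)) (by
        rintro ⟨⟨j, y⟩, hj1, hj2⟩ hj
        exact le_inf (hle 0 y h0 j hj hj2) (hle 1 y h1 j hj hj2))
      rw [h]
      omega
    · have h0 : 0 < a i := by omega
      have h1 : 1 < a i := by omega
      have h2 : 2 < a i := by omega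
      have g := gap3 (ρ := rho) rho_strictMono
        (u := f (BP.mk' i 0 hi' h0)) (v := f (BP.mk' i 1 hi' h1))
        (w := f (BP.mk' i 2 hi' h2)) (z := z)
        (fun hh => BP.not_le_of_ne (by norm_num) (f.le_iff_le.1 hh))
        (fun hh => BP.not_le_of_ne (by norm_num) (f.le_iff_le.1 hh))
        (fun hh => BP.not_le_of_ne (by norm_num) (f.le_iff_le.1 hh))
        (fun hh => BP.not_le_of_ne (by norm_num) (f.le_iff_le.1 hh))
        (fun hh => BP.not_le_of_ne (by norm_num) (f.le_iff_le.1 hh))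
        (fun hh => BP.not_le_of_ne (by norm_num) (f.le_iff_le.1 hh))
        (hz _ (Nat.lt_succ_self i)) (hz _ (Nat.lt_succ_self i)) (hz _ (Nat.lt_succ_self i))
      have g2 := ih hi'.le (f (BP.mk' i 0 hi' h0) ⊓ f (BP.mk' i 1 hi' h1) ⊓
          f (BP.mk' i 2 hi' h2)) (by
        rintro ⟨⟨j, y⟩, hj1, hj2⟩ hj
        exact le_inf (le_inf (hle 0 y h0 j hj hj2) (hle 1 y h1 j hj hj2)) (hle 2 y h2 j hj hj2))
      rw [h]
      omega

theorem lower {a : ℕ → ℕ} {s t k : ℕ} (hk : 1 ≤ k) (ha : ∀ i, a i = 2 ∨ a i = 3)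
    (f : BP a s ↪o (Fin t → Fin k)) : S a s ≤ t * (k - 1) := by
  have h := lower_aux ha f s le_rfl (fun _ => ⟨k - 1, by omega⟩) (by
    intro p _ c
    have := (f p c).2
    rw [Fin.le_def]
    simp only
    omega)
  simpa [rho] using h

/-! ### Embeddings -/

/-- number of steps used by a block -/
def sg (n : ℕ) : ℕ := if n = 1 then 0 else n

/-- the steps set of an element -/
def J (a : ℕ → ℕ) (p : ℕ × ℕ) : Finset ℕ :=
  range (S (fun i => sg (a i)) p.1) ∪ if a p.1 = 1 then ∅ else {S (fun i => sg (a i)) p.1 + p.2}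

theorem S_mono {a : ℕ → ℕ} : Monotone (S a) := by
  apply monotone_nat_of_le_succ
  intro i
  rw [S_succ]
  omega

theorem J_card (a : ℕ → ℕ) (p : ℕ × ℕ) :
    (J a p).card = S (fun i => sg (a i)) p.1 + if a p.1 = 1 then 0 else 1 := by
  unfold J
  split_ifs with h
  · simp
  · rw [card_union_of_disjoint]
    · simp
    · rw [disjoint_singleton_right, mem_range]
      omega

theorem J_subset_range {a : ℕ → ℕ} {p : ℕ × ℕ} (hp : p.2 < a p.1) :
    J a p ⊆ range (S (fun i => sg (a i)) (p.1 + 1)) := by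
  intro j hj
  rw [mem_range, S_succ]
  unfold J at hj
  rw [mem_union, mem_range] at hj
  rcases hj with hj | hj
  · omega
  · split_ifs at hj with h
    · simp at hj
    · rw [mem_singleton] at hj
      have : sg (a p.1) = a p.1 := if_neg h
      omega

theorem upper {a : ℕ → ℕ} {s t k : ℕ} (hk : 2 ≤ k) (ht : 3 ≤ t)
    (ha : ∀ i < s, a i = 1 ∨ a i = 2 ∨ a i = 3)
    (hone : ∀ i < s, ∀ j < s, a i = 1 → a j = 1 → i = j)
    (hS : S (fun i => sg (a i)) s ≤ t * (k - 1)) : Nonempty (BP a s ↪o (Fin t → Fin k)) := by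
  classical
  have ht0 : 0 < t := by omega
  -- the coordinates are small enough
  have hlt : ∀ (p : BP a s) (c : Fin t), ((J a p.1).filter fun j => j % t = c).card < k := by
    intro p c
    have h1 : ((J a p.1).filter fun j => j % t = c).card ≤ (range (k - 1)).card := by
      refine card_le_card_of_injOn (fun j => j / t) ?_ ?_
      · intro j hj
        rw [mem_coe, mem_filter] at hj
        have h2 := mem_range.1 (J_subset_range p.2.2 hj.1)
        have h3 : S (fun i => sg (a i)) (p.1.1 + 1) ≤ S (fun i => sg (a i)) s := S_mono p.2.1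
        rw [mem_coe, mem_range]
        exact Nat.div_lt_of_lt_mul (by omega)
      · intro j hj j' hj' hjj
        rw [mem_coe, mem_filter] at hj hj'
        have e1 := Nat.div_add_mod j t
        have e2 := Nat.div_add_mod j' t
        have hjj' : j / t = j' / t := hjj
        rw [hj.2, hjj'] at e1
        rw [hj'.2] at e2
        omega
    rw [card_range] at h1
    omega
  let e : BP a s → (Fin t → Fin k) := fun p c =>
    ⟨((J a p.1).filter fun j => j % t = c).card, hlt p c⟩
  have hsum : ∀ p : BP a s, ∑ c : Fin t, ((e p c : Fin k) : ℕ) = (J a p.1).card := by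
    intro p
    have h1 := Finset.card_eq_sum_card_fiberwise (f := fun j : ℕ => (⟨j % t, Nat.mod_lt _ ht0⟩ :
      Fin t)) (s := J a p.1) (t := univ) (fun _ _ => mem_coe.2 (mem_univ _))
    rw [h1]
    refine sum_congr rfl fun c _ => ?_
    simp only [e]
    congr 1
    ext j
    simp only [mem_filter, Fin.ext_iff]
  refine ⟨OrderEmbedding.ofMapLEIff e fun p q => ⟨fun hle => ?_, fun hle => ?_⟩⟩
  · by_contra hcon
    rw [BP.le_def, not_or] at hcon
    obtain ⟨hc1, hc2⟩ := hcon
    rcases Nat.lt_or_ge q.1.1 p.1.1 with hlt' | hge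
    · -- ranks
      have h1 : (J a p.1).card ≤ (J a q.1).card := by
        rw [← hsum, ← hsum]
        exact sum_le_sum fun c _ => hle c
      rw [J_card, J_card] at h1
      have h2 : S (fun i => sg (a i)) (q.1.1 + 1) ≤ S (fun i => sg (a i)) p.1.1 := S_mono hlt'
      rw [S_succ] at h2
      have h3 := ha q.1.1 q.2.1
      have h4 : ¬ (a p.1.1 = 1 ∧ a q.1.1 = 1) := fun h =>
        hlt'.ne (hone _ p.2.1 _ q.2.1 h.1 h.2).symm
      have h5 : sg (a q.1.1) = if a q.1.1 = 1 then 0 else a q.1.1 := rfl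
      rw [h5] at h2
      split_ifs at h1 h2 <;> omega
    · have heq : p.1.1 = q.1.1 := le_antisymm hge (not_lt.1 hc1)
      have hne : p.1.2 ≠ q.1.2 := fun h => hc2 (Subtype.ext (Prod.ext heq h))
      have hp2 := p.2.2
      have hq2 := q.2.2
      rw [← heq] at hq2
      have h3 := ha p.1.1 p.2.1
      have ha1 : a p.1.1 ≠ 1 := by omega
      set c : Fin t := ⟨(S (fun i => sg (a i)) p.1.1 + p.1.2) % t, Nat.mod_lt _ ht0⟩ with hc
      have h4 := hle c
      rw [Fin.le_def] at h4
      simp only [e] at h4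
      have hJp : J a p.1 = insert (S (fun i => sg (a i)) p.1.1 + p.1.2)
          (range (S (fun i => sg (a i)) p.1.1)) := by
        unfold J
        rw [if_neg ha1, union_comm]
        rfl
      have hJq : J a q.1 = insert (S (fun i => sg (a i)) p.1.1 + q.1.2)
          (range (S (fun i => sg (a i)) p.1.1)) := by
        unfold J
        rw [← heq, if_neg ha1, union_comm]
        rfl
      have hmod : ¬ (S (fun i => sg (a i)) p.1.1 + q.1.2) % t = (c : ℕ) := by
        intro h
        simp only [hc] at h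
        have h5 : (S (fun i => sg (a i)) p.1.1 + q.1.2) ≡ (S (fun i => sg (a i)) p.1.1 + p.1.2)
          [MOD t] := h
        have h6 := Nat.ModEq.add_left_cancel' _ h5
        have h7 : q.1.2 % t = p.1.2 % t := h6
        rw [Nat.mod_eq_of_lt (by omega), Nat.mod_eq_of_lt (by omega)] at h7
        exact hne h7.symm
      rw [hJp, hJq, filter_insert, filter_insert, if_pos (by simp [hc]), if_neg hmod,
        card_insert_of_notMem (by
          rw [mem_filter, mem_range]
          omega)] at h4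
      omega
  · rcases hle with hlt' | rfl
    · intro c
      rw [Fin.le_def]
      simp only [e]
      apply card_le_card
      apply filter_subset_filter
      refine (J_subset_range p.2.2).trans ?_
      refine (range_subset_range.2 (S_mono hlt')).trans ?_
      unfold J
      exact subset_union_left
    · exact le_rfl

/-- deleting a point -/
theorem delete_embed {a : ℕ → ℕ} {s : ℕ} (x : BP a s) :
    Nonempty ({y : BP a s // y ≠ x} ↪o
      BP (Function.update a x.1.1 (a x.1.1 - 1)) s) := by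
  classical
  have hb : ∀ y : {y : BP a s // y ≠ x},
      (if y.1.1.1 = x.1.1 ∧ x.1.2 < y.1.1.2 then y.1.1.2 - 1 else y.1.1.2) <
        Function.update a x.1.1 (a x.1.1 - 1) y.1.1.1 := by
    intro y
    have h1 := y.1.2.2
    have h0 := x.2.2
    by_cases h : y.1.1.1 = x.1.1
    · rw [h, Function.update_self]
      rw [h] at h1
      split_ifs with h2
      · omega
      · simp only [true_and, not_lt] at h2
        have h3 : y.1.1.2 ≠ x.1.2 := fun h3 => y.2 (Subtype.ext (Prod.ext h h3))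
        omega
    · rw [Function.update_of_ne h, if_neg (fun hh => h hh.1)]
      exact h1
  refine ⟨OrderEmbedding.ofMapLEIff (fun y => (⟨(y.1.1.1,
    if y.1.1.1 = x.1.1 ∧ x.1.2 < y.1.1.2 then y.1.1.2 - 1 else y.1.1.2), y.1.2.1, hb y⟩ :
      BP (Function.update a x.1.1 (a x.1.1 - 1)) s)) ?_⟩
  intro y z
  change (y.1.1.1 < z.1.1.1 ∨ _ = _) ↔ (y.1.1.1 < z.1.1.1 ∨ y.1 = z.1)
  refine or_congr Iff.rfl ?_
  constructor
  · intro h
    have h1 : y.1.1.1 = z.1.1.1 :=
      congrArg (fun p : BP (Function.update a x.1.1 (a x.1.1 - 1)) s => p.1.1) h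
    have h2 : (if y.1.1.1 = x.1.1 ∧ x.1.2 < y.1.1.2 then y.1.1.2 - 1 else y.1.1.2) =
        (if z.1.1.1 = x.1.1 ∧ x.1.2 < z.1.1.2 then z.1.1.2 - 1 else z.1.1.2) :=
      congrArg (fun p : BP (Function.update a x.1.1 (a x.1.1 - 1)) s => p.1.2) h
    apply Subtype.ext
    refine Prod.ext h1 ?_
    rw [← h1] at h2
    by_cases h : y.1.1.1 = x.1.1
    · have h3 : y.1.1.2 ≠ x.1.2 := fun h3 => y.2 (Subtype.ext (Prod.ext h h3))
      have h4 : z.1.1.2 ≠ x.1.2 := fun h3 => z.2 (Subtype.ext (Prod.ext (h1 ▸ h) h3))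
      simp only [h, true_and] at h2
      split_ifs at h2 <;> omega
    · simp only [h, false_and, if_false] at h2
      exact h2
  · intro h
    have : y = z := Subtype.ext h
    rw [this]

theorem kdim_BP {a : ℕ → ℕ} {s k D : ℕ} (hk : 2 ≤ k) (hD : 4 ≤ D)
    (ha : ∀ i, a i = 2 ∨ a i = 3) (hS : S a s = (D - 1) * (k - 1) + 1) :
    kdim k (BP a s) = D ∧ KIrreducible k (BP a s) := by
  obtain ⟨d, rfl⟩ : ∃ d, D = d + 1 := ⟨D - 1, by omega⟩
  obtain ⟨m, rfl⟩ : ∃ m, k = m + 1 := ⟨k - 1, by omega⟩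
  simp only [Nat.add_sub_cancel] at hS
  have hsg : (fun i => sg (a i)) = a := by
    funext i
    unfold sg
    rcases ha i with h | h <;> rw [h] <;> rfl
  have hdim : kdim (m + 1) (BP a s) = d + 1 := by
    have hl : IsLeast {t : ℕ | Nonempty (BP a s ↪o (Fin t → Fin (m + 1)))} (d + 1) := by
      refine ⟨upper hk (by omega) (fun i _ => Or.inr (ha i)) ?_ ?_, ?_⟩
      · intro i _ j _ h1 _
        rcases ha i with h | h <;> omega
      · rw [hsg, hS, Nat.add_sub_cancel]
        have : (d + 1) * m = d * m + m := by ring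
        omega
      · rintro t ⟨f⟩
        have h := lower (by omega) ha f
        rw [hS, Nat.add_sub_cancel] at h
        have : d * m < t * m := h
        exact lt_of_mul_lt_mul_right this (Nat.zero_le m)
    exact hl.csInf_eq
  refine ⟨hdim, fun x => ?_⟩
  rw [hdim]
  obtain ⟨g⟩ := delete_embed x
  have hx := x.2.1
  have hax := ha x.1.1
  have hemb : Nonempty (BP (Function.update a x.1.1 (a x.1.1 - 1)) s ↪o
      (Fin d → Fin (m + 1))) := by
    refine upper hk (by omega) ?_ ?_ ?_
    · intro i _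
      by_cases h : i = x.1.1
      · rw [h, Function.update_self]; omega
      · rw [Function.update_of_ne h]; exact Or.inr (ha i)
    · intro i _ j _ h1 h2
      by_cases h : i = x.1.1
      · by_cases h' : j = x.1.1
        · rw [h, h']
        · rw [Function.update_of_ne h'] at h2
          have := ha j
          omega
      · rw [Function.update_of_ne h] at h1
        have := ha i
        omega
    · have h1 : S (fun i => sg (Function.update a x.1.1 (a x.1.1 - 1) i)) s + 1 ≤ S a s := by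
        unfold S
        rw [← Finset.add_sum_erase _ _ (mem_range.2 hx),
          ← Finset.add_sum_erase _ _ (mem_range.2 hx), Function.update_self]
        have h2 : ∑ i ∈ (range s).erase x.1.1, sg (Function.update a x.1.1 (a x.1.1 - 1) i) =
            ∑ i ∈ (range s).erase x.1.1, a i := by
          refine sum_congr rfl fun i hi => ?_
          rw [Function.update_of_ne (ne_of_mem_erase hi)]
          exact congrFun hsg i
        rw [h2]
        have h3 : sg (a x.1.1 - 1) + 1 ≤ a x.1.1 := by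
          unfold sg
          split_ifs <;> omega
        omega
      rw [hS] at h1
      rw [Nat.add_sub_cancel]
      omega
  obtain ⟨f⟩ := hemb
  have : kdim (m + 1) {y : BP a s // y ≠ x} ≤ d := Nat.sInf_le ⟨g.trans f⟩
  omega

/-! ### Non-isomorphism -/

theorem card_lt {a : ℕ → ℕ} {s : ℕ} (p : BP a s) :
    Nat.card {q : BP a s // q < p} = S a p.1.1 := by
  have e : {q : BP a s // q < p} ≃ (Σ j : Fin p.1.1, Fin (a j)) :=
    { toFun := fun q => ⟨⟨q.1.1.1, BP.lt_def.1 q.2⟩, ⟨q.1.1.2, q.1.2.2⟩⟩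
      invFun := fun r => ⟨⟨(r.1.1, r.2.1), r.1.2.trans p.2.1, r.2.2⟩, BP.lt_def.2 r.1.2⟩
      left_inv := fun q => rfl
      right_inv := fun r => rfl }
  rw [Nat.card_congr e, Nat.card_eq_fintype_card, Fintype.card_sigma]
  simp only [Fintype.card_fin]
  exact Fin.sum_univ_eq_sum_range a p.1.1

theorem S_strictMono {a : ℕ → ℕ} (ha : ∀ i, 0 < a i) : StrictMono (S a) := by
  apply strictMono_nat_of_lt_succ
  intro i
  rw [S_succ]
  have := ha i
  omega

theorem S_add_of_two {a : ℕ → ℕ} {s : ℕ} (h : ∀ i, s ≤ i → a i = 2) (j : ℕ) :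
    S a (s + j) = S a s + 2 * j := by
  induction j with
  | zero => rfl
  | succ j ih =>
    rw [← add_assoc, S_succ, ih, h _ (by omega)]
    ring

theorem subset_of_iso {a b : ℕ → ℕ} {s s' : ℕ} (ha : ∀ i, 0 < a i)
    (h2a : ∀ i, s ≤ i → a i = 2) (h2b : ∀ i, s' ≤ i → b i = 2)
    (hS : S a s = S b s') (φ : BP a s ≃o BP b s') : Set.range (S a) ⊆ Set.range (S b) := by
  rintro _ ⟨i, rfl⟩
  rcases Nat.lt_or_ge i s with hi | hi
  · set p : BP a s := BP.mk' i 0 hi (ha i) with hp
    have e : {q : BP a s // q < p} ≃ {q : BP b s' // q < φ p} :=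
      { toFun := fun q => ⟨φ q.1, φ.lt_iff_lt.2 q.2⟩
        invFun := fun q => ⟨φ.symm q.1, by
          have := φ.symm.lt_iff_lt.2 q.2
          rwa [φ.symm_apply_apply] at this⟩
        left_inv := fun q => by simp
        right_inv := fun q => by simp }
    have h1 := Nat.card_congr e
    rw [card_lt, card_lt] at h1
    exact ⟨_, h1.symm⟩
  · refine ⟨s' + (i - s), ?_⟩
    rw [S_add_of_two h2b, ← hS, ← S_add_of_two h2a]
    congr 1
    omega

theorem eq_of_iso {a b : ℕ → ℕ} {s s' : ℕ} (ha : ∀ i, 0 < a i) (hb : ∀ i, 0 < b i)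
    (h2a : ∀ i, s ≤ i → a i = 2) (h2b : ∀ i, s' ≤ i → b i = 2)
    (hS : S a s = S b s') (φ : BP a s ≃o BP b s') : a = b ∧ s = s' := by
  have h1 : Set.range (S a) = Set.range (S b) :=
    Set.Subset.antisymm (subset_of_iso ha h2a h2b hS φ)
      (subset_of_iso hb h2b h2a hS.symm φ.symm)
  have h2 : S a = S b := (StrictMono.range_inj (S_strictMono ha) (S_strictMono hb)).1 h1
  have h3 : a = b := by
    funext i
    have e1 := S_succ a i
    have e2 := S_succ b i
    rw [h2] at e1
    omega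
  refine ⟨h3, ?_⟩
  rw [h3] at hS
  exact (S_strictMono hb).injective hS

/-- block sizes from bits -/
def sq (r : ℕ) : List Bool → List ℕ
  | [] => if r % 2 = 0 then List.replicate (r / 2) 2 else 3 :: List.replicate ((r - 3) / 2) 2
  | true :: l => 2 :: 2 :: 2 :: sq r l
  | false :: l => 3 :: 3 :: sq r l

theorem sq_sum {r : ℕ} (hr : 2 ≤ r) (l : List Bool) : (sq r l).sum = 6 * l.length + r := by
  induction l with
  | nil =>
    unfold sq
    split_ifs with h
    · simp
      omega
    · simp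
      omega
  | cons b l ih =>
    cases b <;> simp only [sq, List.sum_cons, List.length_cons, ih] <;> ring

theorem sq_mem (r : ℕ) (l : List Bool) : ∀ x ∈ sq r l, x = 2 ∨ x = 3 := by
  induction l with
  | nil =>
    intro x hx
    unfold sq at hx
    split_ifs at hx with h
    · exact Or.inl (List.eq_of_mem_replicate hx)
    · rcases List.mem_cons.1 hx with h | h
      · exact Or.inr h
      · exact Or.inl (List.eq_of_mem_replicate h)
  | cons b l ih =>
    intro x hx
    cases b
    · simp only [sq, List.mem_cons] at hx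
      rcases hx with h | h | h
      · exact Or.inr h
      · exact Or.inr h
      · exact ih x h
    · simp only [sq, List.mem_cons] at hx
      rcases hx with h | h | h | h
      · exact Or.inl h
      · exact Or.inl h
      · exact Or.inl h
      · exact ih x h

theorem sq_inj (r : ℕ) : ∀ l l' : List Bool, l.length = l'.length → sq r l = sq r l' → l = l' := by
  intro l
  induction l with
  | nil =>
    intro l' h _
    exact (List.length_eq_zero_iff.1 h.symm).symm
  | cons b l ih =>
    intro l' h h'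
    match l' with
    | b' :: l' =>
      simp only [List.length_cons, Nat.add_right_cancel_iff] at h
      cases b <;> cases b' <;> simp only [sq, List.cons.injEq, true_and, Nat.reduceEqDiff,
        false_and] at h'
      · rw [ih l' h h']
      · rw [ih l' h h']

/-- the function of block sizes of a list -/
def fn (l : List ℕ) (i : ℕ) : ℕ := l.getD i 2

theorem fn_mem {l : List ℕ} (hl : ∀ x ∈ l, x = 2 ∨ x = 3) (i : ℕ) : fn l i = 2 ∨ fn l i = 3 := by
  unfold fn
  rw [List.getD_eq_getElem?_getD]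
  by_cases h : i < l.length
  · rw [List.getElem?_eq_getElem h]
    exact hl _ (List.getElem_mem h)
  · rw [List.getElem?_eq_none (by omega)]
    exact Or.inl rfl

theorem S_fn (l : List ℕ) : S (fn l) l.length = l.sum := by
  unfold S
  rw [← Fin.sum_univ_eq_sum_range, ← List.sum_ofFn]
  congr 1
  apply List.ext_getElem
  · simp
  · intro i h1 h2
    simp [fn, List.getD_eq_getElem?_getD]

theorem fn_two (l : List ℕ) (i : ℕ) (h : l.length ≤ i) : fn l i = 2 := by
  unfold fn
  rw [List.getD_eq_getElem?_getD, List.getElem?_eq_none h]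
  rfl

theorem le_N (k : ℕ) (hk : 2 ≤ k) (t : ℕ) (ht : 4 ≤ t) :
    ((2 ^ (((t - 1) * (k - 1) - 1) / 6) : ℕ) : ℕ∞) ≤ N k t := by
  classical
  set T := (t - 1) * (k - 1) + 1 with hT
  have hT4 : 4 ≤ T := by
    have : 3 * 1 ≤ (t - 1) * (k - 1) := Nat.mul_le_mul (by omega) (by omega)
    omega
  set q := (T - 2) / 6 with hq
  have hq' : ((t - 1) * (k - 1) - 1) / 6 = q := by rw [hq, hT]; congr 1
  set r := T - 6 * q with hr
  have hr2 : 2 ≤ r := by omega
  let P : List.Vector Bool q → FinPoset := fun l =>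
    ⟨BP (fn (sq r l.toList)) (sq r l.toList).length⟩
  have hSl : ∀ l : List.Vector Bool q,
      S (fn (sq r l.toList)) (sq r l.toList).length = T := by
    intro l
    rw [S_fn, sq_sum hr2, l.toList_length]
    omega
  have hinj : Function.Injective fun l => Quotient.mk isoSetoid (P l) := by
    intro l l' h
    obtain ⟨φ⟩ := Quotient.exact h
    have h1 := eq_of_iso
      (fun i => by rcases fn_mem (sq_mem r l.toList) i with h | h <;> omega)
      (fun i => by rcases fn_mem (sq_mem r l'.toList) i with h | h <;> omega)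
      (fn_two _) (fn_two _) ((hSl l).trans (hSl l').symm) φ
    have h2 : sq r l.toList = sq r l'.toList := by
      apply List.ext_getElem h1.2
      intro i hi hi'
      have h3 := congrFun h1.1 i
      simpa [fn, List.getD_eq_getElem?_getD, hi, hi'] using h3
    exact List.Vector.eq _ _ (sq_inj r _ _ (by rw [l.toList_length, l'.toList_length]) h2)
  have hsub : Set.range (fun l => Quotient.mk isoSetoid (P l)) ⊆
      {c : Quotient isoSetoid | ∃ P : FinPoset, Quotient.mk isoSetoid P = c ∧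
        KIrreducible k P.carrier ∧ kdim k P.carrier = t} := by
    rintro _ ⟨l, rfl⟩
    have h := kdim_BP hk ht (fn_mem (sq_mem r l.toList)) (hSl l)
    exact ⟨P l, rfl, h.2, h.1⟩
  calc ((2 ^ (((t - 1) * (k - 1) - 1) / 6) : ℕ) : ℕ∞)
      = (Set.range (fun l => Quotient.mk isoSetoid (P l))).encard := by
        rw [← Set.image_univ, hinj.encard_image, Set.encard_univ, ENat.card_eq_coe_natCard,
          Nat.card_eq_fintype_card, card_vector, Fintype.card_bool, hq']
    _ ≤ N k t := Set.encard_le_encard hsub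

theorem eventually_pow (c C : ℕ) : ∀ᶠ t : ℕ in atTop, C * t ^ c < 2 ^ ((t - 2) / 6) := by
  have ht := tendsto_pow_const_div_const_pow_of_one_lt c (one_lt_two : (1 : ℝ) < 2)
  have hpos : (0 : ℝ) < 1 / ((C + 1) * 14 ^ c) := by positivity
  have hev : ∀ᶠ n : ℕ in atTop, (C + 1) * 14 ^ c * n ^ c < 2 ^ n := by
    filter_upwards [ht.eventually (gt_mem_nhds hpos)] with n hn
    rw [div_lt_div_iff₀ (by positivity) (by positivity), one_mul] at hn
    have : (n : ℝ) ^ c * ((C + 1) * 14 ^ c) < 2 ^ n := hn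
    have h2 : n ^ c * ((C + 1) * 14 ^ c) < 2 ^ n := by exact_mod_cast this
    calc (C + 1) * 14 ^ c * n ^ c = n ^ c * ((C + 1) * 14 ^ c) := by ring
      _ < _ := h2
  have htend : Tendsto (fun t : ℕ => (t - 2) / 6) atTop atTop := by
    rw [tendsto_atTop]
    intro b
    filter_upwards [eventually_ge_atTop (6 * b + 2)] with t ht
    omega
  filter_upwards [htend.eventually hev, eventually_ge_atTop 8] with t h1 h2
  have h3 : t ≤ 14 * ((t - 2) / 6) := by omega
  calc C * t ^ c ≤ (C + 1) * (14 * ((t - 2) / 6)) ^ c :=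
        Nat.mul_le_mul (Nat.le_succ C) (Nat.pow_le_pow_left h3 c)
    _ = (C + 1) * 14 ^ c * ((t - 2) / 6) ^ c := by rw [mul_pow]; ring
    _ < _ := h1

/-- For every `k ≥ 2` the number `N_k(t)` of `k`-irreducible posets of `k`-dimension `t` grows at
least exponentially: `N_k(t) ≥ 2 ^ ⌊((t-1)(k-1)-1)/6⌋` for all `t ≥ 4`. In particular for every `k`
it eventually exceeds every polynomial `C * t ^ c` in `t` (so it is neither polynomially nor
linearly bounded). -/
theorem result (k : ℕ) (hk : 2 ≤ k) :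
    (∀ t, 4 ≤ t → ((2 ^ (((t - 1) * (k - 1) - 1) / 6) : ℕ) : ℕ∞) ≤ N k t) ∧
    ∀ c C : ℕ, ∀ᶠ t : ℕ in atTop, ((C * t ^ c : ℕ) : ℕ∞) < N k t := by
  refine ⟨le_N k hk, fun c C => ?_⟩
  filter_upwards [eventually_pow c C, eventually_ge_atTop 4] with t h1 h2
  have h3 : 2 ^ ((t - 2) / 6) ≤ 2 ^ (((t - 1) * (k - 1) - 1) / 6) := by
    apply Nat.pow_le_pow_right (by norm_num)
    apply Nat.div_le_div_right
    have : (t - 1) * 1 ≤ (t - 1) * (k - 1) := Nat.mul_le_mul_left _ (by omega)
    omega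
  refine lt_of_lt_of_le ?_ (le_N k hk t h2)
  exact_mod_cast lt_of_lt_of_le h1 h3

end Pool.Agent.Results.MP_f639ae_co.ExponentialGrowth
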